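import Pool.Agent.H30.TauG

set_option autoImplicit false

namespace Pool.Agent.Results.MP_7b70e8_gt.CH

open Pool.Agent.H30.Tau Cardinal

/-- Under the continuum hypothesis, `Split(Ω, T)` does not imply `Split(T, Γ)`. -/
theorem result (hc : (𝔠 : Cardinal.{0}) = ℵ₁) :
    ∃ X : Set ℝ, Spl (Z := X) Om Ta ∧ ¬ Spl (Z := X) Ta Ga :=
  let ⟨X, _, h1, h2, _⟩ := tower_real hc
  ⟨X, h1, fun h => h2 h.ch⟩

end Pool.Agent.Results.MP_7b70e8_gt.CH
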